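import Pool.Agent.Lib.MP_eed79e_coT.Main

/-!
Classification of the geometrically two-orbit 4-polytopes in hyperbolic 3-space whose
vertex-figures are tetrahedra: a two-parameter family.
-/

namespace Pool.Agent.Results.MP_eed79e_co.TetrahedralClassification

open Pool.Agent.Lib.MP_eed79e_coT

theorem result :
    ∃ (U : Type) (_ : PartialOrder U) (_ : BoundedOrder U) (rkU : U → ℤ)
      (b₀ : ℝ → ℝ → {v : U // rkU v = 0} → H3),
      IsPolytope 4 rkU ∧ IsCombRegular rkU ∧ HasTetrahedralVertexFigures rkU ∧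
      (∀ ℓ θ : ℝ, 0 < ℓ → 0 < θ → θ < Real.pi →
        ∀ e : U, rkU e = 1 → ∀ v w : {v : U // rkU v = 0}, v.1 ≤ e → w.1 ≤ e → v ≠ w →
          hdist (b₀ ℓ θ v) (b₀ ℓ θ w) = ℓ) ∧
      (∀ ℓ θ : ℝ, Real.arcosh 2 < ℓ → 0 < θ → θ < Real.pi →
        IsDiscreteSet rkU (b₀ ℓ θ) ∧ IsFaithful rkU (b₀ ℓ θ) ∧ IsTwoOrbit rkU (b₀ ℓ θ)) ∧
      (∀ (P : Type) [PartialOrder P] [BoundedOrder P] (rk : P → ℤ)
        (b : {v : P // rk v = 0} → H3),
        IsPolytope 4 rk → HasTetrahedralVertexFigures rk → IsFaithful rk b → IsTwoOrbit rk b →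
        IsChiral rk b ∧
          ∃! q : ℝ × ℝ, 0 < q.1 ∧ 0 < q.2 ∧ q.2 < Real.pi ∧
            ∃ T : H3 ≃ H3, Maps rk b rkU T (b₀ q.1 q.2)) :=
  ⟨PP, inferInstance, inferInstance, rk, fam, main.1, main.2.1, main.2.2.1, main.2.2.2.1,
    main.2.2.2.2.1, main.2.2.2.2.2⟩

end Pool.Agent.Results.MP_eed79e_co.TetrahedralClassification
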