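import Pool.Agent.Lib.MP_eed79e_coW.Main2

/-!
# MP_eed79e_co: a two-parameter family of geometrically two-orbit 4-polytopes

One single abstract 4-polytope has, for all reals `arcosh 5 ≤ s < t`, a faithful discrete realization in
hyperbolic 3-space whose image is geometrically two-orbit and has edges of exactly the two lengths `s` and `t`;
images for different pairs `(s, t)` are not congruent.
-/

set_option autoImplicit false

open Pool.Agent.Lib.MP_eed79e_coW

theorem Pool.Agent.Results.MP_eed79e_co.TwoParameterFamily.result :
    ∃ (P : Type) (_ : PartialOrder P) (A : AbsPoly 4 P) (β : ℝ → ℝ → P → H3),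
      ∀ s t : ℝ, Real.arcosh 5 ≤ s → s < t →
        Faithful A (β s t) ∧ Disc (img A (β s t)).V ∧ TwoOrbit (img A (β s t)) ∧
        lens (img A (β s t)) = {s, t} ∧
        ∀ s' t' : ℝ, Real.arcosh 5 ≤ s' → s' < t' → Cong (img A (β s t)) (img A (β s' t')) →
          s = s' ∧ t = t' :=
  main2
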