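import Pool.Agent.Lib.MP_eed79e_coW.Main1

/-!
# MP_eed79e_co: vertex stabilisers of geometric 4-polytopes with at most two flag orbits

Let `K` be the image of a faithful (not necessarily discrete) realization of an abstract 4-polytope in
hyperbolic 3-space whose symmetries have at most two orbits on the flags. Then `K` has infinitely many
vertices, and a vertex `y` is the only point of hyperbolic 3-space which is fixed by all symmetries of `K`
that fix `y`.
-/

set_option autoImplicit false

open Pool.Agent.Lib.MP_eed79e_coW

theorem Pool.Agent.Results.MP_eed79e_co.VertexStabiliser.result (K : Geo) (hK : IsImg K)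
    (h2 : AtMostTwo K) :
    K.V.Infinite ∧ ∀ y ∈ K.V, ∀ x : H3, (∀ g, IsSym K g → g y = y → g x = x) → x = y :=
  ⟨main1_inf K hK h2, fun y hy x hx => main1 K hK h2 y hy x hx⟩
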